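import Pool.Agent.Lib.MP_edb5be_nt.ND.Iface2

/-!
Project ND, module SELF: self-similarity of the densities `FF m`.
-/

set_option autoImplicit false

namespace Pool.Agent.Lib.MP_edb5be_nt.ND.H16

open Finset Pool.Agent.Lib.MP_0a5adf_nt.TP

/-! ### Words and numerators -/

theorem mem_Fam {n c : ℕ} {S : Finset ℕ} :
    S ∈ Fam n c ↔ S ⊆ Icc 1 c ∧ S.card = n ∧ S.sup id = c := by
  unfold Fam
  rw [mem_filter, mem_powersetCard, and_assoc]

theorem num_eq_xr {i : ℕ} {S : Finset ℕ} (h : S ⊆ Icc 1 i) : (num i S : ℝ) = 2 ^ i * xr S := by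
  unfold num xr
  rw [mul_sum]
  push_cast
  refine sum_congr rfl fun x hx => ?_
  have hxi : x ≤ i := (mem_Icc.1 (h hx)).2
  have h2 : (2 : ℝ) ^ i = 2 ^ (i - x) * 2 ^ x := by rw [← pow_add, Nat.sub_add_cancel hxi]
  rw [h2]
  field_simp

theorem num_cat (hcat : CatStatement) {a b : ℕ} {A B : Finset ℕ} (hA : A ⊆ Icc 1 a)
    (hB : B ⊆ Icc 1 b) :
    num (a + b) (cat a A B) = 2 ^ b * num a A + 3 ^ A.card * num b B := by
  obtain ⟨h1, -, -, h4, -, -⟩ := hcat a b A B hA hB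
  have h5 : (num (a + b) (cat a A B) : ℝ) = ((2 ^ b * num a A + 3 ^ A.card * num b B : ℕ) : ℝ) := by
    push_cast
    rw [num_eq_xr h1, h4, num_eq_xr hA, num_eq_xr hB, pow_add]
    field_simp
  exact_mod_cast h5

theorem xz_eq_iff (hdyn : DynStatement) {i : ℕ} (k : ℕ) {S : Finset ℕ} (h : S ⊆ Icc 1 i) (y : ℤ) :
    xz (3 ^ k) S = (y : ZMod (3 ^ k)) ↔ (3 : ℤ) ^ k ∣ 2 ^ i * y - num i S := by
  have h4 := hdyn.2.2.2 i k S h
  have hu : IsUnit ((2 : ZMod (3 ^ k)) ^ i) := by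
    refine IsUnit.pow i ?_
    have hc : Nat.Coprime 2 (3 ^ k) := Nat.Coprime.pow_right k (by norm_num)
    have := (ZMod.isUnit_iff_coprime 2 (3 ^ k)).2 hc
    exact_mod_cast this
  have h5 : xz (3 ^ k) S = (y : ZMod (3 ^ k)) ↔
      (2 : ZMod (3 ^ k)) ^ i * xz (3 ^ k) S = 2 ^ i * (y : ZMod (3 ^ k)) :=
    ⟨fun e => by rw [e], fun e => hu.mul_left_cancel e⟩
  rw [h5, h4]
  have h6 : ((3 : ℤ) ^ k ∣ 2 ^ i * y - num i S) ↔
      (((2 ^ i * y - num i S : ℤ)) : ZMod (3 ^ k)) = 0 := by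
    rw [ZMod.intCast_zmod_eq_zero_iff_dvd]
    push_cast
    rfl
  rw [h6]
  push_cast
  constructor
  · intro e
    rw [e, sub_self]
  · intro e
    exact (sub_eq_zero.1 e).symm

theorem cat_mem_Fam (hcat : CatStatement) {n m a b : ℕ} {A B : Finset ℕ} (hA : A ∈ Fam n a)
    (hB : B ∈ Fam m b) : cat a A B ∈ Fam (n + m) (a + b) := by
  rw [mem_Fam] at hA hB ⊢
  obtain ⟨hA1, hA2, hA3⟩ := hA
  obtain ⟨hB1, hB2, hB3⟩ := hB
  obtain ⟨h1, h2, -, -, -, -⟩ := hcat a b A B hA1 hB1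
  refine ⟨h1, by rw [h2, hA2, hB2], ?_⟩
  refine le_antisymm (Finset.sup_le fun x hx => (mem_Icc.1 (h1 hx)).2) ?_
  rcases B.eq_empty_or_nonempty with hB0 | hB0
  · subst hB0
    have hb : b = 0 := by rw [← hB3]; rfl
    subst hb
    rw [Nat.add_zero]
    calc a = A.sup id := hA3.symm
      _ ≤ (cat a A ∅).sup id := Finset.sup_mono (by
        unfold cat
        exact subset_union_left)
  · obtain ⟨x, hx, hxb⟩ := Finset.exists_mem_eq_sup B hB0 id
    have hxb' : x = b := by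
      rw [hB3] at hxb
      exact hxb.symm
    subst hxb'
    have hm : a + x ∈ cat a A B := by
      unfold cat
      refine mem_union_right _ ?_
      rw [mem_map]
      exact ⟨x, hx, rfl⟩
    exact Finset.le_sup (f := id) hm

/-! ### Every residue prime to `3` is attained by a short word -/

theorem exists_pow (x : ℤ) (hx : ¬ (3 : ℤ) ∣ x) :
    ∃ a : ℕ, 1 ≤ a ∧ a ≤ 6 ∧ ∃ x' : ℤ, 2 ^ a * x = 1 + 3 * x' ∧ ¬ (3 : ℤ) ∣ x' := by
  have h9 : x % 9 = 1 ∨ x % 9 = 2 ∨ x % 9 = 4 ∨ x % 9 = 5 ∨ x % 9 = 7 ∨ x % 9 = 8 := by omega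
  rcases h9 with h | h | h | h | h | h
  · exact ⟨2, by norm_num, by norm_num, (4 * x - 1) / 3, by omega, by omega⟩
  · exact ⟨1, by norm_num, by norm_num, (2 * x - 1) / 3, by omega, by omega⟩
  · exact ⟨6, by norm_num, by norm_num, (64 * x - 1) / 3, by omega, by omega⟩
  · exact ⟨3, by norm_num, by norm_num, (8 * x - 1) / 3, by omega, by omega⟩
  · exact ⟨4, by norm_num, by norm_num, (16 * x - 1) / 3, by omega, by omega⟩
  · exact ⟨5, by norm_num, by norm_num, (32 * x - 1) / 3, by omega, by omega⟩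

theorem exists_word (hcat : CatStatement) (n : ℕ) : ∀ x : ℤ, ¬ (3 : ℤ) ∣ x →
    ∃ c : ℕ, c ≤ 6 * n ∧ ∃ w ∈ Fam n c, (3 : ℤ) ^ n ∣ 2 ^ c * x - num c w := by
  induction n with
  | zero =>
    intro x _
    refine ⟨0, le_rfl, ∅, ?_, ?_⟩
    · rw [mem_Fam]
      exact ⟨empty_subset _, rfl, rfl⟩
    · rw [pow_zero]
      exact one_dvd _
  | succ n ih =>
    intro x hx
    obtain ⟨a, ha1, ha6, x', hx', h3⟩ := exists_pow x hx
    obtain ⟨c', hc', B, hB, hdiv⟩ := ih x' h3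
    have hA : ({a} : Finset ℕ) ∈ Fam 1 a := by
      rw [mem_Fam]
      refine ⟨?_, card_singleton a, sup_singleton⟩
      rw [singleton_subset_iff, mem_Icc]
      exact ⟨ha1, le_rfl⟩
    have hcm := cat_mem_Fam hcat hA hB
    refine ⟨a + c', by omega, cat a {a} B, ?_, ?_⟩
    · rw [Nat.add_comm n 1]
      exact hcm
    · have hnum := num_cat hcat (mem_Fam.1 hA).1 (mem_Fam.1 hB).1
      have hna : num a {a} = 1 := by
        unfold num
        rw [sum_singleton, Nat.sub_self, pow_zero, mul_one]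
        have : rk {a} a = 0 := by
          unfold rk
          rw [card_eq_zero, filter_eq_empty_iff]
          intro y hy
          rw [mem_singleton] at hy
          omega
        rw [this, pow_zero]
      rw [hnum, hna, card_singleton, pow_one]
      obtain ⟨q, hq⟩ := hdiv
      refine ⟨q, ?_⟩
      push_cast
      rw [pow_add]
      calc (2 : ℤ) ^ a * 2 ^ c' * x - (2 ^ c' * 1 + 3 * (num c' B : ℤ))
          = 2 ^ c' * (2 ^ a * x) - 2 ^ c' - 3 * num c' B := by ring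
        _ = 3 * (2 ^ c' * x' - num c' B) := by rw [hx']; ring
        _ = 3 ^ (n + 1) * q := by rw [hq]; ring

/-! ### Summability -/

theorem f_nonneg (m c : ℕ) (X : ZMod (3 ^ m)) : 0 ≤ f m c X := by
  unfold f
  positivity

theorem summable_f (hmass : MassStatement) (m : ℕ) (X : ZMod (3 ^ m)) :
    Summable fun c : ℕ => f m c X := by
  refine summable_of_sum_range_le (c := 1) (fun c => f_nonneg m c X) fun c₁ => ?_
  have h := hmass.2.2 (1 / 2) m c₁ (by norm_num) (by norm_num)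
  have h1 : ((1 / 2 : ℝ) / (1 - 1 / 2)) ^ m = 1 := by norm_num
  rw [h1] at h
  refine le_trans (sum_le_sum fun c _ => ?_) h
  unfold f
  rw [div_pow, one_pow, mul_one_div]
  gcongr
  exact filter_subset _ _

/-! ### Self-similarity -/

theorem f_le (hcat : CatStatement) (hdyn : DynStatement) {n c : ℕ} {w : Finset ℕ}
    (hw : w ∈ Fam n c) (m c' : ℕ) (y Y : ℤ) (hY : 2 ^ c * y - num c w = 3 ^ n * Y) :
    f m c' (Y : ZMod (3 ^ m)) / 2 ^ c ≤ f (m + n) (c + c') (y : ZMod (3 ^ (m + n))) := by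
  classical
  unfold f
  rw [div_div, ← pow_add, Nat.add_comm c' c]
  refine div_le_div_of_nonneg_right ?_ (by positivity)
  rw [Nat.cast_le]
  refine card_le_card_of_injOn (cat c w) ?_ ?_
  · intro B hB
    rw [Finset.mem_coe, mem_filter] at hB
    obtain ⟨hB1, hB2⟩ := hB
    rw [Finset.mem_coe, mem_filter]
    have hcm := cat_mem_Fam hcat hw hB1
    refine ⟨?_, ?_⟩
    · rw [Nat.add_comm m n]
      exact hcm
    · rw [xz_eq_iff hdyn (m + n) (mem_Fam.1 hcm).1, num_cat hcat (mem_Fam.1 hw).1 (mem_Fam.1 hB1).1,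
        (mem_Fam.1 hw).2.1]
      rw [xz_eq_iff hdyn m (mem_Fam.1 hB1).1] at hB2
      obtain ⟨q, hq⟩ := hB2
      refine ⟨q, ?_⟩
      push_cast
      calc (2 : ℤ) ^ (c + c') * y - (2 ^ c' * (num c w : ℤ) + 3 ^ n * (num c' B : ℤ))
          = 2 ^ c' * (2 ^ c * y - num c w) - 3 ^ n * num c' B := by rw [pow_add]; ring
        _ = 3 ^ n * (2 ^ c' * Y - num c' B) := by rw [hY]; ring
        _ = 3 ^ (m + n) * q := by rw [hq, pow_add]; ring
  · intro B hB B' hB' he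
    rw [Finset.mem_coe, mem_filter] at hB hB'
    have hB1 := (mem_Fam.1 hB.1).1
    have hB1' := (mem_Fam.1 hB'.1).1
    have h6 := (hcat c c' w B (mem_Fam.1 hw).1 hB1).2.2.2.2.2
    have h6' := (hcat c c' w B' (mem_Fam.1 hw).1 hB1').2.2.2.2.2
    ext x
    rcases Nat.eq_zero_or_pos x with hx | hx
    · subst hx
      constructor
      · intro h
        exact absurd (mem_Icc.1 (hB1 h)).1 (by norm_num)
      · intro h
        exact absurd (mem_Icc.1 (hB1' h)).1 (by norm_num)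
    · rw [← h6 x hx, ← h6' x hx]
      have he' : cat c w B = cat c w B' := he
      rw [he']

/-- SELF. -/
theorem self (hdyn : DynStatement) (hcat : CatStatement) (hmass : MassStatement) :
    SelfStatement := by
  intro n
  refine ⟨6 * n, fun x hx => ?_⟩
  obtain ⟨c, hc, w, hw, hdiv⟩ := exists_word hcat n x hx
  refine ⟨c, hc, num c w, hdiv, fun m y hy => ?_⟩
  have hdiv' : (3 : ℤ) ^ n ∣ 2 ^ c * y - num c w := by
    have h1 : (2 : ℤ) ^ c * y - num c w = (2 ^ c * x - num c w) + 2 ^ c * (y - x) := by ring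
    rw [h1]
    exact dvd_add hdiv (Dvd.dvd.mul_left hy _)
  have hY : (2 : ℤ) ^ c * y - num c w = 3 ^ n * ((2 ^ c * y - num c w) / 3 ^ n) :=
    (Int.mul_ediv_cancel' hdiv').symm
  set Y : ℤ := (2 ^ c * y - num c w) / 3 ^ n with hYdef
  unfold FF
  have hS1 := summable_f hmass m (Y : ZMod (3 ^ m))
  have hS2 := summable_f hmass (m + n) (y : ZMod (3 ^ (m + n)))
  have hinj : Function.Injective fun c' : ℕ => c + c' := fun a b h => Nat.add_left_cancel h
  have key : (∑' c' : ℕ, f m c' (Y : ZMod (3 ^ m))) / 2 ^ c ≤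
      ∑' c' : ℕ, f (m + n) c' (y : ZMod (3 ^ (m + n))) := by
    rw [← tsum_div_const]
    calc ∑' c' : ℕ, f m c' (Y : ZMod (3 ^ m)) / 2 ^ c
        ≤ ∑' c' : ℕ, f (m + n) (c + c') (y : ZMod (3 ^ (m + n))) :=
          (hS1.div_const _).tsum_le_tsum (fun c' => f_le hcat hdyn hw m c' y Y hY)
            (hS2.comp_injective hinj)
      _ ≤ ∑' c' : ℕ, f (m + n) c' (y : ZMod (3 ^ (m + n))) :=
          tsum_comp_le_tsum_of_inj hS2 (fun _ => f_nonneg _ _ _) hinj
  calc (3 : ℝ) ^ n / 2 ^ c * (3 ^ m * ∑' c' : ℕ, f m c' (Y : ZMod (3 ^ m)))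
      = 3 ^ (m + n) * ((∑' c' : ℕ, f m c' (Y : ZMod (3 ^ m))) / 2 ^ c) := by
        rw [pow_add]; ring
    _ ≤ 3 ^ (m + n) * ∑' c' : ℕ, f (m + n) c' (y : ZMod (3 ^ (m + n))) := by gcongr

end Pool.Agent.Lib.MP_edb5be_nt.ND.H16
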